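import Pool.Agent.Lib_helper51.Ecl.Defs

/-!
# The global regularised form of the planar three-body problem with masses `1/2, 1/2, e`

Bodies `A, B` (masses `1/2`) and `C` (mass `e ≥ 0`).  State `(u, S, w, v, g, t, e)`:
`u = q_B - q_A`, `q_C - (q_A + q_B)/2 = (u/2) cosh w`, `dt = J ds` with
`J = |u|² |sinh w|² / 4 = |q_C - q_A| |q_C - q_B|`.
The field is smooth on `u ≠ 0`, for all `e`, in particular through the collisions of `C` with
`A` and with `B` (the points where `sinh w = 0`).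
-/

set_option autoImplicit false

namespace Pool.Agent.Ecl

open Set Complex

/-- The state space `(u, S, w, v, g, t, e)`. -/
abbrev E7 := ℂ × ℂ × ℂ × ℂ × ℝ × ℝ × ℝ

/-- difference of the positions of the primaries -/
def cu (X : E7) : ℂ := X.1
/-- slow momentum -/
def cS (X : E7) : ℂ := X.2.1
/-- the Thiele-Burrau coordinate -/
def cw (X : E7) : ℂ := X.2.2.1
/-- momentum of `w` -/
def cv (X : E7) : ℂ := X.2.2.2.1
/-- energy variable -/
def cg (X : E7) : ℝ := X.2.2.2.2.1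
/-- physical time -/
def ct (X : E7) : ℝ := X.2.2.2.2.2.1
/-- mass of the third body -/
def ce (X : E7) : ℝ := X.2.2.2.2.2.2

/-- complex conjugation -/
noncomputable abbrev cj (z : ℂ) : ℂ := (starRingEnd ℂ) z

/-- `J = |q_C - q_A| |q_C - q_B|` -/
noncomputable def cJ (X : E7) : ℝ := normSq (cu X) * normSq (sinh (cw X)) / 4

/-- the field: component `u` -/
noncomputable def Fu (X : E7) : ℂ :=
  4 * (cJ X : ℂ) * cS X - (ce X : ℂ) * cj (cosh (cw X)) * sinh (cw X) * cu X * cv X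

/-- the field: component `S` -/
noncomputable def FS (X : E7) : ℂ :=
  -((cJ X / (4 * ‖cu X‖ ^ 3) : ℝ) : ℂ) * cu X
    - ((ce X * cg X * normSq (sinh (cw X)) / 2 : ℝ) : ℂ) * cu X
    + (ce X : ℂ) * (cS X * cosh (cw X) * cj (sinh (cw X)) * cj (cv X))
    + ((ce X / 2 * Real.cosh (cw X).re / ‖cu X‖ : ℝ) : ℂ) * cu X

/-- the field: component `w` -/
noncomputable def Fw (X : E7) : ℂ :=
  -(cS X * cosh (cw X) * cj (sinh (cw X)) * cj (cu X))
    + ((1 + ce X + ce X * normSq (cosh (cw X)) : ℝ) : ℂ) * cv X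

/-- the field: component `v` -/
noncomputable def Fv (X : E7) : ℂ :=
  -((cg X * normSq (cu X) / 2 : ℝ) : ℂ) * (sinh (cw X) * cj (cosh (cw X)))
    + cj (cS X) * cu X * cv X * (normSq (sinh (cw X)) : ℂ)
    + cS X * cj (cu X) * cj (cv X) * (normSq (cosh (cw X)) : ℂ)
    - ((ce X * normSq (cv X) : ℝ) : ℂ) * (cosh (cw X) * cj (sinh (cw X)))
    + ((‖cu X‖ * Real.sinh (cw X).re / 2 : ℝ) : ℂ)

/-- the field: component `g` -/
noncomputable def Fg (X : E7) : ℝ :=
  -2 * cg X * normSq (sinh (cw X)) * (cj (cS X) * cu X).re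
    + (4 * normSq (cS X) - 1 / (4 * ‖cu X‖)) * (cj (cosh (cw X)) * sinh (cw X) * cv X).re
    + 2 * Real.cosh (cw X).re * (cj (cS X) * cu X).re / ‖cu X‖

/-- The global regularised vector field. -/
noncomputable def VF (X : E7) : E7 := (Fu X, FS X, Fw X, Fv X, Fg X, cJ X, 0)

/-- Its domain: the primaries do not collide. -/
def UU : Set E7 := {X | cu X ≠ 0}

/-- The energy relation of the system is `Gh = 0`. -/
noncomputable def Gh (X : E7) : ℝ :=
  cJ X * cg X - (cj (cS X) * cj (cosh (cw X)) * sinh (cw X) * cu X * cv X).re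
    + (1 + ce X + ce X * normSq (cosh (cw X))) * normSq (cv X) / 2
    - ‖cu X‖ * Real.cosh (cw X).re / 2

/-- Initial state: ejection of `C` from `B` with angle `θ`, mass `e` of `C`. -/
noncomputable def Xin (θ e : ℝ) : E7 :=
  (1, I / 4, 0, ((1 / Real.sqrt (1 + 2 * e) : ℝ) : ℂ) * exp (θ * I), 7 / 5, 0, e)

/-- `γ` solves `γ' = F(γ)` on `[0, T]` (two-sided derivatives) and stays in `U`. -/
def SolOn {E : Type*} [NormedAddCommGroup E] [NormedSpace ℝ E] (F : E → E) (U : Set E)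
    (γ : ℝ → E) (T : ℝ) : Prop :=
  ∀ t ∈ Icc 0 T, HasDerivAt γ (F (γ t)) t ∧ γ t ∈ U

/-! ### Eclipse patterns -/

/-- Twice the position of `C` in the frame where `A = -1`, `B = 1`. -/
noncomputable def Zt (X : E7) : ℂ := cosh (cw X)

/-- The derivative of `Zt` along the field. -/
noncomputable def dZ (X : E7) : ℂ := sinh (cw X) * Fw X

/-- The letter `e` of the `k`-th flight, in terms of the real position `x = Zt`. -/
def Letter (k : ℕ) : Ex → ℝ → Prop
  | .mid, x => -1 < x ∧ x < 1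
  | .rgt, x => 1 < (-1) ^ k * x
  | .lft, x => 1 < -((-1) ^ k * x)

/-- Transversal end in the letter `e` of flight `k`. -/
def TEnd (k : ℕ) (e : Ex) (X : E7) : Prop :=
  (Zt X).im = 0 ∧ (dZ X).im ≠ 0 ∧ Letter k e (Zt X).re

/-- The eclipses of `γ` in the open interval `(0, S)` are transversal and have letters `r`. -/
def TPat (γ : ℝ → E7) (S : ℝ) (r : List Ex) : Prop :=
  ∃ τ : Fin r.length → ℝ, StrictMono τ ∧ (∀ i, 0 < τ i ∧ τ i < S) ∧
    (∀ s, 0 < s → s < S → (Zt (γ s)).im = 0 → ∃ i, τ i = s) ∧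
    ∀ i : Fin r.length, TEnd (i : ℕ) (r.get i) (γ (τ i))

/-- End in the collision which is to the left in flight `k` (`C` with `A` for even `k`, with `B`
for odd `k`). -/
def CEnd (k : ℕ) (X : E7) : Prop := Zt X = (-1) ^ (k + 1)

/-- The collision is approached from the correct quadrant. -/
def CDir (X : E7) : Prop := (Fw X ^ 2).im < 0

/-! ### Newtonian quantities -/

/-- `y = q_C - (q_A + q_B)/2` -/
noncomputable def yy (X : E7) : ℂ := cu X / 2 * cosh (cw X)

/-- positions of `A, B, C` -/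
noncomputable def qq (a : Fin 3) (X : E7) : ℂ :=
  ![-((ce X / (1 + ce X) : ℝ) : ℂ) * yy X - cu X / 2,
    -((ce X / (1 + ce X) : ℝ) : ℂ) * yy X + cu X / 2,
    ((1 / (1 + ce X) : ℝ) : ℂ) * yy X] a

/-- `π = y-velocity / (1 + e)` -/
noncomputable def ppi (X : E7) : ℂ := cv X / cj (cu X * sinh (cw X) / 2)

/-- velocity of `u` -/
noncomputable def ud (X : E7) : ℂ := 4 * cS X - 2 * (ce X : ℂ) * cj (cosh (cw X)) * ppi X

/-- velocities of `A, B, C` -/
noncomputable def vv (a : Fin 3) (X : E7) : ℂ :=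
  ![-(ce X : ℂ) * ppi X - ud X / 2, -(ce X : ℂ) * ppi X + ud X / 2, ppi X] a

/-- masses -/
noncomputable def mm (e : ℝ) (a : Fin 3) : ℝ := ![1 / 2, 1 / 2, e] a

/-- Newtonian acceleration of the body `a` for positions `q` -/
noncomputable def acc (m : Fin 3 → ℝ) (q : Fin 3 → ℂ) (a : Fin 3) : ℂ :=
  ∑ b ∈ Finset.univ.erase a, (m b : ℂ) * (q b - q a) / ((‖q b - q a‖ ^ 3 : ℝ) : ℂ)

/-! ### Unrolled Thiele-Burrau tracks -/

/-- the complex coordinate of a T-B state -/
def zS (y : St) : ℂ := ⟨y.xi, y.eta⟩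

/-- its velocity -/
def vS (y : St) : ℂ := ⟨y.p, y.q⟩

/-- the symmetry `ζ ↦ c ζ + iπ n` (`c = ±1`) of the T-B system -/
noncomputable def tr (c : ℝ) (n : ℤ) (y : St) : St :=
  ⟨c * y.xi, c * y.eta + Real.pi * n, c * y.p, c * y.q⟩

/-- Transversal end, T-B version -/
def TEndS (k : ℕ) (e : Ex) (y : St) : Prop :=
  (cosh (zS y)).im = 0 ∧ (sinh (zS y) * vS y).im ≠ 0 ∧ Letter k e (cosh (zS y)).re

/-- Eclipse pattern, T-B version, flights numbered from `k` -/
def TPatS (k : ℕ) (x : ℝ → St) (S : ℝ) (r : List Ex) : Prop :=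
  ∃ τ : Fin r.length → ℝ, StrictMono τ ∧ (∀ i, 0 < τ i ∧ τ i < S) ∧
    (∀ s, 0 < s → s < S → (cosh (zS (x s))).im = 0 → ∃ i, τ i = s) ∧
    ∀ i : Fin r.length, TEndS (k + (i : ℕ)) (r.get i) (x (τ i))

/-- The exit letter of flight `k` for the body `a` in the middle. -/
def code (k : ℕ) (a : Fin 3) : Ex :=
  if a = 2 then .mid else if (a = 1 ↔ Even k) then .rgt else .lft

end Pool.Agent.Ecl
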